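import Pool.Agent.MWGX.StmtsA

/-!
# MWGX, row DGR (helper4): the label differences form a group
-/

set_option autoImplicit false

namespace Pool.Agent.MWGX.H4

open Pool.Agent.Helper14_MV Pool.Agent.Helper2_MV
open Pool.Agent.MWGR (X It Dm)

/-- a set of numbers closed under addition and subtraction of its element `n` -/
theorem grp (p : ℕ → Prop) (n : ℕ) (hn : 1 ≤ n) (hpn : p n)
    (hadd : ∀ d e, p d → p e → p (d + e)) (hsub : ∀ d, p (d + n) → p d) :
    ∃ δ, 1 ≤ δ ∧ δ ∣ n ∧ ∀ d, p d ↔ δ ∣ d := by
  classical
  have hex : ∃ δ, 1 ≤ δ ∧ p δ := ⟨n, hn, hpn⟩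
  have h1 := Nat.find_spec hex
  set δ := Nat.find hex with hδ
  have h0 : p 0 := hsub 0 (by simpa using hpn)
  have hmul : ∀ k, p (δ * k) := by
    intro k
    induction k with
    | zero => simpa using h0
    | succ k ih =>
      rw [Nat.mul_succ]
      exact hadd _ _ ih h1.2
  have hsubk : ∀ k d, p (d + n * k) → p d := by
    intro k
    induction k with
    | zero => intro d h; simpa using h
    | succ k ih =>
      intro d h
      apply ih
      apply hsub
      have e : d + n * k + n = d + n * (k + 1) := by ring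
      rw [e]
      exact h
  have hiff : ∀ d, p d ↔ δ ∣ d := by
    intro d
    constructor
    · intro hd
      have h2 : p (d + δ * ((n - 1) * (d / δ))) := hadd _ _ hd (hmul _)
      have e : d + δ * ((n - 1) * (d / δ)) = d % δ + n * (δ * (d / δ)) := by
        obtain ⟨m, rfl⟩ : ∃ m, n = m + 1 := ⟨n - 1, by omega⟩
        have h3 := Nat.mod_add_div d δ
        rw [Nat.add_sub_cancel]
        calc d + δ * (m * (d / δ)) = (d % δ + δ * (d / δ)) + δ * (m * (d / δ)) := by rw [h3]
          _ = d % δ + (m + 1) * (δ * (d / δ)) := by ring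
      rw [e] at h2
      have h3 := hsubk _ _ h2
      rcases Nat.eq_zero_or_pos (d % δ) with h4 | h4
      · exact Nat.dvd_of_mod_eq_zero h4
      · exact absurd ⟨h4, h3⟩ (Nat.find_min hex (Nat.mod_lt _ h1.1))
    · rintro ⟨k, rfl⟩
      exact hmul k
  exact ⟨δ, h1.1, (hiff n).1 hpn, hiff⟩

/-- `2` becomes `X k 2` -/
def sf (k : ℕ) (c : ℕ) : List ℕ := if c = 2 then X k ++ [2] else [c]

theorem flat_X (k m : ℕ) : (X m).flatMap (sf k) = X m := by
  induction m with
  | zero => rfl
  | succ m ih =>
    show (0 :: List.replicate m 0).flatMap (sf k) = 0 :: List.replicate m 0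
    rw [List.flatMap_cons]
    show [0] ++ (X m).flatMap (sf k) = _
    rw [ih]
    rfl

theorem X_add (i j : ℕ) (q : List ℕ) : X (i + j) ++ q = X i ++ (X j ++ q) := by
  have e : X (i + j) = X i ++ X j := List.replicate_add i j 0
  rw [e, List.append_assoc]

theorem flat_sf (k i j : ℕ) :
    (X i ++ 1 :: (X j ++ [2, 1])).flatMap (sf k) = X i ++ 1 :: (X (j + k) ++ [2, 1]) := by
  have e4 : [2, 1].flatMap (sf k) = X k ++ [2, 1] := by simp [sf]
  rw [List.flatMap_append, flat_X, List.flatMap_cons, List.flatMap_append, flat_X, e4, X_add]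
  rfl

theorem dgr (hF : FlxStmt) : DgrStmt := by
  intro n θ hn hI
  have flx := hF n θ hI 1
  have hmem : (1 : ℕ) ∈ [2, 1] := by simp
  obtain ⟨δ, h1, h2, h3⟩ := grp (fun d => Dm n d (RR θ)) n hn
    (by
      have h := flx (n + n) n n (n + n) [] [2, 1] (by omega) (by omega) (by omega) (by omega)
        (by simp [Nat.ModEq]) (by simp [Nat.ModEq]) hmem
      exact h)
    (by
      intro d e hd he
      have s1 : RR θ (X (n + (d + e)) ++ 1 :: (X n ++ [2, 1]))
          (X (n + e) ++ 1 :: (X (n + d) ++ [2, 1])) := by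
        have s2 := (RR.refl (β := θ) (X e)).append hd
        have e1 : n + (d + e) = e + (n + d) := by ring
        have e2 : n + e = e + n := by ring
        rw [e1, e2, X_add e (n + d), X_add e n]
        exact s2
      have s3 : RR θ (X (n + e) ++ 1 :: (X (n + d) ++ [2, 1]))
          (X n ++ 1 :: (X (n + (d + e)) ++ [2, 1])) := by
        have s4 := RR.sub (sf d) he
        rw [flat_sf, flat_sf] at s4
        have e1 : n + (d + e) = n + e + d := by ring
        rw [e1]
        exact s4
      exact θ.trans s1 s3)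
    (by
      intro d hd
      have s1 := flx (n + (d + n)) n (n + d) n [] [2, 1] (by omega) (by omega) (by omega)
        (by omega) (by
          have e : n + (d + n) = n + d + n := by ring
          rw [e]
          simp [Nat.ModEq]) rfl hmem
      have s2 := flx n (n + (d + n)) n (n + d) [] [2, 1] (by omega) (by omega) (by omega)
        (by omega) rfl (by
          have e : n + (d + n) = n + d + n := by ring
          rw [e]
          simp [Nat.ModEq]) hmem
      exact θ.trans (RR.symm s1) (θ.trans hd s2))
  exact ⟨δ, ⟨h1, h2, h3⟩⟩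

end Pool.Agent.MWGX.H4
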